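import Pool.Agent.helper14.NS.Q45c.PZ

/-!
Generated: certificates.
-/

namespace Pool.Agent.helper14.NS.Q45c

open Pool.Agent.helper31.IA (Z)
open Pool.Agent.helper31.IX (Op XOps runX Cov CovD cov_split covD_split)
open Pool.Agent.helper31.IC (TD)
open Pool.Agent.helper63.RG (reloc)
open Pool.Agent.helper63.NF hiding TD
open Pool.Agent.helper4.NS
open Pool.Agent.helper14.CF (xE covD_E)
open Pool.Agent.helper14.NR (share)

mutual
theorem Z_c0_t4 : CovD 1 gZ [(20301479936, 4132438016), (618475290624, 68719476736), (112004694016, 112004694016)] :=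
  covD_E kZ_eq (.n 2 (.n 2 (.n 2 (.l 0) (.n 0 (.l 0) (.l 0))) (.n 0 (.n 2 (.l 0) (.l 0)) (.n 1 (.l 0) (.l 0)))) (.n 0 (.n 2 (.n 2 (.l 0) (.l 0)) (.n 1 (.l 0) (.l 0))) (.n 0 (.n 2 (.l 0) (.l 0)) (.n 2 (.l 0) (.l 0)))))
    [(20301479936, 4132438016), (618475290624, 68719476736), (112004694016, 112004694016)] rfl (by decide +kernel)
theorem Z_c0_t5 : CovD 1 gZ [(20301479936, 4132438016), (618475290624, 68719476736), (336014082048, 112004694016)] :=
  covD_E kZ_eq (.n 0 (.n 1 (.n 2 (.n 2 (.l 0) (.l 0)) (.n 2 (.l 0) (.l 0))) (.n 2 (.n 2 (.l 0) (.l 0)) (.n 2 (.l 0) (.l 0)))) (.n 2 (.n 2 (.l 0) (.l 0)) (.n 2 (.l 0) (.l 0))))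
    [(20301479936, 4132438016), (618475290624, 68719476736), (336014082048, 112004694016)] rfl (by decide +kernel)
end

mutual
theorem Z_c0_t8 : CovD 1 gZ [(18235260928, 2066219008), (618475290624, 68719476736), (560023470080, 112004694016)] :=
  covD_E kZ_eq (.n 1 (.n 2 (.n 2 (.l 0) (.l 0)) (.n 2 (.l 0) (.l 0))) (.n 2 (.n 2 (.l 0) (.l 0)) (.n 2 (.l 0) (.l 0))))
    [(18235260928, 2066219008), (618475290624, 68719476736), (560023470080, 112004694016)] rfl (by decide +kernel)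
theorem Z_c0_t9 : CovD 1 gZ [(18235260928, 2066219008), (618475290624, 68719476736), (784032858112, 112004694016)] :=
  covD_E kZ_eq (.n 2 (.n 2 (.n 2 (.l 0) (.l 0)) (.n 2 (.l 0) (.l 0))) (.n 2 (.n 2 (.l 0) (.l 0)) (.n 1 (.n 0 (.l 0) (.l 0)) (.l 0))))
    [(18235260928, 2066219008), (618475290624, 68719476736), (784032858112, 112004694016)] rfl (by decide +kernel)
end

mutual
theorem Z_c0_t10 : CovD 1 gZ [(22367698944, 2066219008), (618475290624, 68719476736), (672028164096, 224009388032)] :=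
  covD_E kZ_eq (.n 2 (.n 2 (.n 2 (.l 0) (.l 0)) (.n 2 (.l 0) (.l 0))) (.n 2 (.n 2 (.l 0) (.n 0 (.l 0) (.l 0))) (.n 1 (.n 2 (.l 0) (.l 0)) (.n 2 (.l 0) (.l 0)))))
    [(22367698944, 2066219008), (618475290624, 68719476736), (672028164096, 224009388032)] rfl (by decide +kernel)
theorem Z_c0_t12 : CovD 1 gZ [(20301479936, 4132438016), (755914244096, 68719476736), (224009388032, 224009388032)] :=
  covD_E kZ_eq (.n 2 (.n 2 (.n 2 (.n 2 (.l 0) (.l 0)) (.n 2 (.l 0) (.l 0))) (.n 0 (.n 2 (.l 0) (.l 0)) (.n 2 (.l 0) (.l 0)))) (.n 0 (.n 2 (.n 2 (.l 0) (.l 0)) (.n 2 (.l 0) (.l 0))) (.n 2 (.n 2 (.l 0) (.l 0)) (.n 1 (.l 0) (.l 0)))))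
    [(20301479936, 4132438016), (755914244096, 68719476736), (224009388032, 224009388032)] rfl (by decide +kernel)
end

mutual
theorem Z_c0_t14 : CovD 1 gZ [(18235260928, 2066219008), (755914244096, 68719476736), (672028164096, 224009388032)] :=
  covD_E kZ_eq (.n 2 (.n 2 (.n 2 (.l 0) (.l 0)) (.n 2 (.l 0) (.l 0))) (.n 2 (.n 2 (.l 0) (.l 0)) (.n 2 (.l 0) (.n 0 (.l 0) (.l 0)))))
    [(18235260928, 2066219008), (755914244096, 68719476736), (672028164096, 224009388032)] rfl (by decide +kernel)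
theorem Z_c0_t15 : CovD 1 gZ [(22367698944, 2066219008), (755914244096, 68719476736), (672028164096, 224009388032)] :=
  covD_E kZ_eq (.n 2 (.n 2 (.n 0 (.l 0) (.l 0)) (.n 2 (.l 0) (.l 0))) (.n 2 (.n 2 (.l 0) (.l 0)) (.n 2 (.l 0) (.l 0))))
    [(22367698944, 2066219008), (755914244096, 68719476736), (672028164096, 224009388032)] rfl (by decide +kernel)
end

mutual
theorem Z_c0_t18 : CovD 1 gZ [(20301479936, 4132438016), (962072674304, 137438953472), (112004694016, 112004694016)] :=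
  covD_E kZ_eq (.n 2 (.n 2 (.n 2 (.l 0) (.n 0 (.l 0) (.l 0))) (.n 0 (.n 1 (.l 0) (.l 0)) (.n 0 (.l 0) (.l 0)))) (.n 0 (.n 2 (.n 0 (.l 0) (.l 0)) (.l 0)) (.n 2 (.l 0) (.l 0))))
    [(20301479936, 4132438016), (962072674304, 137438953472), (112004694016, 112004694016)] rfl (by decide +kernel)
theorem Z_c0_t19 : CovD 1 gZ [(20301479936, 4132438016), (962072674304, 137438953472), (336014082048, 112004694016)] :=
  covD_E kZ_eq (.n 0 (.n 2 (.n 2 (.l 0) (.l 0)) (.n 2 (.l 0) (.l 0))) (.n 2 (.n 2 (.l 0) (.l 0)) (.n 1 (.l 0) (.l 0))))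
    [(20301479936, 4132438016), (962072674304, 137438953472), (336014082048, 112004694016)] rfl (by decide +kernel)
end

mutual
theorem Z_c0_t21 : CovD 1 gZ [(18235260928, 2066219008), (962072674304, 137438953472), (672028164096, 224009388032)] :=
  covD_E kZ_eq (.n 2 (.n 2 (.n 2 (.l 0) (.l 0)) (.n 2 (.l 0) (.l 0))) (.n 2 (.n 2 (.l 0) (.l 0)) (.n 0 (.n 2 (.l 0) (.l 0)) (.n 2 (.l 0) (.l 0)))))
    [(18235260928, 2066219008), (962072674304, 137438953472), (672028164096, 224009388032)] rfl (by decide +kernel)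
theorem Z_c0_t22 : CovD 1 gZ [(22367698944, 2066219008), (962072674304, 137438953472), (672028164096, 224009388032)] :=
  covD_E kZ_eq (.n 2 (.n 2 (.n 1 (.l 0) (.l 0)) (.n 2 (.l 0) (.l 0))) (.n 2 (.n 2 (.l 0) (.l 0)) (.n 2 (.l 0) (.l 0))))
    [(22367698944, 2066219008), (962072674304, 137438953472), (672028164096, 224009388032)] rfl (by decide +kernel)
end

mutual
theorem T_c0 : CovD 1 gT [(20301479936, 4132438016), (824633720832, 274877906944)] :=
  covD_E kT_eq (.n 0 (.n 1 (.n 1 (.n 1 (.l 0) (.n 1 (.l 0) (.l 0))) (.n 0 (.n 1 (.n 1 (.l 0) (.l 0)) (.n 1 (.l 0) (.l 0))) (.l 0))) (.n 0 (.n 1 (.n 1 (.l 0) (.l 0)) (.l 0)) (.l 0))) (.n 1 (.n 0 (.l 0) (.l 0)) (.l 0)))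
    [(20301479936, 4132438016), (824633720832, 274877906944)] rfl (by decide +kernel)
theorem S_c0 : CovD 0 gS [(20301479936, 4132438016), (824633720832, 274877906944)] :=
  covD_E kS_eq (.n 1 (.n 0 (.n 1 (.l 0) (.l 0)) (.n 1 (.l 0) (.l 0))) (.n 1 (.n 1 (.l 0) (.l 0)) (.n 0 (.l 0) (.l 0))))
    [(20301479936, 4132438016), (824633720832, 274877906944)] rfl (by decide +kernel)
end

theorem Z_c0_t3 : CovD 1 gZ [(20301479936, 4132438016), (618475290624, 68719476736), (224009388032, 224009388032)] :=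
  covD_split 2 (by decide +kernel) Z_c0_t4 Z_c0_t5

theorem Z_c0_t7 : CovD 1 gZ [(18235260928, 2066219008), (618475290624, 68719476736), (672028164096, 224009388032)] :=
  covD_split 2 (by decide +kernel) Z_c0_t8 Z_c0_t9

theorem Z_c0_t6 : CovD 1 gZ [(20301479936, 4132438016), (618475290624, 68719476736), (672028164096, 224009388032)] :=
  covD_split 0 (by decide +kernel) Z_c0_t7 Z_c0_t10

theorem Z_c0_t2 : CovD 1 gZ [(20301479936, 4132438016), (618475290624, 68719476736), (448018776064, 448018776064)] :=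
  covD_split 2 (by decide +kernel) Z_c0_t3 Z_c0_t6

theorem Z_c0_t13 : CovD 1 gZ [(20301479936, 4132438016), (755914244096, 68719476736), (672028164096, 224009388032)] :=
  covD_split 0 (by decide +kernel) Z_c0_t14 Z_c0_t15

theorem Z_c0_t11 : CovD 1 gZ [(20301479936, 4132438016), (755914244096, 68719476736), (448018776064, 448018776064)] :=
  covD_split 2 (by decide +kernel) Z_c0_t12 Z_c0_t13

theorem Z_c0_t1 : CovD 1 gZ [(20301479936, 4132438016), (687194767360, 137438953472), (448018776064, 448018776064)] :=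
  covD_split 1 (by decide +kernel) Z_c0_t2 Z_c0_t11

theorem Z_c0_t17 : CovD 1 gZ [(20301479936, 4132438016), (962072674304, 137438953472), (224009388032, 224009388032)] :=
  covD_split 2 (by decide +kernel) Z_c0_t18 Z_c0_t19

theorem Z_c0_t20 : CovD 1 gZ [(20301479936, 4132438016), (962072674304, 137438953472), (672028164096, 224009388032)] :=
  covD_split 0 (by decide +kernel) Z_c0_t21 Z_c0_t22

theorem Z_c0_t16 : CovD 1 gZ [(20301479936, 4132438016), (962072674304, 137438953472), (448018776064, 448018776064)] :=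
  covD_split 2 (by decide +kernel) Z_c0_t17 Z_c0_t20

theorem Z_c0 : CovD 1 gZ [(20301479936, 4132438016), (824633720832, 274877906944), (448018776064, 448018776064)] :=
  covD_split 1 (by decide +kernel) Z_c0_t1 Z_c0_t16

end Pool.Agent.helper14.NS.Q45c
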