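import Pool.Agent.helper14.NS.Cert

/-!
Generated: table Q45c.
-/

namespace Pool.Agent.helper14.NS.Q45c

open Pool.Agent.helper63.NF Pool.Agent.helper4.NS

def tab : TD where
  strip := false
  bm := none
  ec := 20300431360
  bc := 824633720832
  H := [[[-6513914880, 11826606784, -31796992, 5103880512], [-857547663296, -271314321984], [5309232968512]], [[1597071744, -467433792, 367394048], [206501811840, -150351614400]], [[-160924288, -387893504, 338171968], [-33687505728]], [[-65813056, 70011456], [1444323264]], [[24699392, -10476800]], [[-3707072]], [[273984]]]
  pol := some ⟨-735513149440, -19911468384256, 5872294035456, 31362867265536, [[-14261637888, -78587966336], [-1504364494976, 0]], [[412336540224, -36071441664], [31573763689856, 0]]⟩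
  a := [[[263983136768, 27795259392, -572036087808, 513563492352], [-5518127333376, -8514756935680]], [[116151681024, -9864544256, -177672421376, 115487539200], [113867489280, 2614305488896]], [[107906924544, -18803261440, -134263668736, 207108702208], [278572171264, 3672158502912]], [[99664265216, -17642487808, -86363602944, 172070338560], [195407839232, 4344072568832]], [[91089993728, -9285074944, -60638560256, 38331744256], [187781939200, 4861898850304]], [[81062068224, -6094716928, -32025477120, 28291039232], [35328884736, 4632034803712]]]
  j := [-13606456393728, 9208409882624, 13469017440256, 16217796509696, 17454747090944, 16492674416640]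
  c := [879662989312, 659814350848, 549755813888, 439697276928, 329907175424, 274877906944]
  M := [[[[1095940112384, -5233967104, 12393578496], [-303210168320, 1468474851328], [16557635076096]], [[59581071360, 39033765888], [4146796232704]], [[-26668761088, -59751071744], [2843501789184]], [[260986372096]], [[-363728797696]], [[205545734144]]], [[[1096875442176, 6488260608, 8498249728], [359632142336]], [[12542672896, 199688192], [531066322944]], [[-722206720]], [[76218368]]], [[[1098476027904, 5824053248, 8566538240], [388573233152]], [[11751915520, 235536384], [540042395648]], [[-517537792]], [[54329344]]], [[[1099711905792, 4502061056, 5864947712], [400059662336]], [[11228020736, 428408832], [540345761792]], [[-363266048]], [[36110336]]], [[[1099880202240, 5325914112, 7180976128], [424988573696]], [[10949099520, 357957632], [535127851008]], [[-275447808]], [[24903680]]], [[[1100113707008, 4171038720, 4866244608], [375811932160]], [[10775101440, 636354560], [536852037632]], [[-206176256]], [[17235968]]]]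
  l0 := [[[3477702243200, 46987041472], [1363287009280]], [[1551892558336, -51803519168], [-15956884779392]], [[464763932224, 32146864640], [2919620036096]], [[832781107776, -913659219520], [-78508374039936]], [[-2249476152384, 1254443992064], [99281829931200]], [[9565205519808, -1653643353984], [-103360504325632]], [[-21287421002624]], [[45641360530880]], [[-64296911684288]], [[79788797623936]], [[-54632580158016]], [[31271649682816]]]
  q0 := [[60491121984, 81429117184, 6532317184], [3277008766976, 5015890892480], [7624727711424]]
  t := [[[1763065200640, 673451343872, -895727435776, -1806599651328], [8609053605888, -27190993289216]], [[723633766400, -102694912000, -659301728256, 146541903872], [4486066012160, 7541501526016]], [[646775046144, -212712095744, -296437415936, 1089094090752], [3234053685248, 19039241306112]], [[598232072192, -145289379840, 17106272256, -85131984896], [2740874051584, 33025558183936]], [[566059401216, -127530631168, 231053787136, 449615101952], [2859654250496, 35920439541760]], [[537059524608, 13985841152, 342981804032, -756718370816], [3320534990848, 34637469712384]]]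
  y := [7703023845376, 8554501111808, 9374839865344, 10185514942464, 10971493957632, 11710228332544]
  sc := [0, 0, 0, 0, 0, 0]
  L := [(0, 2), (0, 3), (1, 1), (2, 0)]
  Lt := [(0, 2), (0, 3), (1, 1)]
  far := 3
  x2 := 10775214161920
  B1 := 1429364277248
  C2 := 1529755045888
  f1 := 0
  f2 := 0
  f3 := 0
  is1 := 8796093022208
  s1 := 137438953472

end Pool.Agent.helper14.NS.Q45c
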